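import Mathlib

/-! Points of schemes with values in finite fields, and the zeta function. -/

set_option autoImplicit false

open AlgebraicGeometry

namespace Pool.Agent.U252.AZ

/-- The number of points of the scheme `X` with values in the field with `q = p ^ (n + 1)` elements,
`x = (p, n)`. -/
noncomputable def pointCount (X : Scheme.{0}) (x : Nat.Primes × ℕ) : ℕ :=
  haveI : Fact (x.1 : ℕ).Prime := ⟨x.1.2⟩
  Nat.card (Spec (CommRingCat.of (GaloisField x.1 (x.2 + 1))) ⟶ X)

/-- The zeta function: the Euler product `∏ (1 - N(x)^{-s})⁻¹` over the closed points `x` of `X`,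
where `N(x)` is the number of elements of the residue field. -/
noncomputable def zetaProduct (X : Scheme.{0}) (s : ℂ) : ℂ :=
  ∏' x : {x : X // IsClosed ({x} : Set X)}, (1 - ((Nat.card (X.residueField x.1) : ℂ) ^ (-s)))⁻¹

end Pool.Agent.U252.AZ
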