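import Pool.Agent.U252.AZ.Law
import Pool.Agent.U252.RM.CxD

/-! Euler products over the closed points of a scheme, and families of curves. -/

set_option autoImplicit false

open AlgebraicGeometry CategoryTheory

namespace Pool.Agent.U252.AZ

open Pool.Agent.Q193.Zeta Pool.Agent.U252.RM Filter Topology Set Pool.Agent.N41.RM
open Pool.Agent.W187.UR (Lam cmean)
open Pool.Agent.W189.ML (ser om)

/-- the closed points -/
abbrev CP (Y : Scheme.{0}) : Type := {y : Y // IsClosed ({y} : Set Y)}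

/-- the number of elements of the residue field -/
noncomputable def qy {Y : Scheme.{0}} (y : CP Y) : ℕ := Nat.card (Y.residueField y.1)

/-- closed points and points with finite residue fields -/
def cpEquiv {Y : Scheme.{0}} (g : Y ⟶ Spec (CommRingCat.of ℤ)) [LocallyOfFiniteType g] :
    CP Y ≃ FP Y :=
  Equiv.subtypeEquivRight fun _ => ⟨fun h => finite_of_closed g h, fun h => closed_of_finite g h⟩

variable {Y : Scheme.{0}} {N : ℕ}

theorem two_le_qy (g : Y ⟶ Spec (CommRingCat.of ℤ)) [LocallyOfFiniteType g] (y : CP Y) :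
    2 ≤ qy y := one_lt_nm Y (cpEquiv g y)

/-- the data of the Euler product -/
theorem fam_data (g : Y ⟶ Spec (CommRingCat.of ℤ)) [LocallyOfFiniteType g] [QuasiCompact g]
    {α : CP Y → Fin N → ℂ} (hα : ∀ y j, ‖α y j‖ ≤ √(qy y)) :
    ∃ D : ℝ, CED D (1 / 2) (fun y : CP Y => (qy y : ℝ)) α := by
  obtain ⟨C, k, hS⟩ := bounded g
  refine ⟨k + 1, by linarith [(Nat.cast_nonneg k : (0 : ℝ) ≤ k)], fun y => ?_, fun σ hσ => ?_,
    fun y j => ?_⟩
  · exact_mod_cast two_le_qy g y
  · have h1 := (summable_tm (one_lt_nm Y) (finite_fib' hS) (fun m _ => cf_le hS m)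
      (s := (σ : ℂ)) (by simpa using hσ)).norm
    have h2 := h1.comp_injective (i := fun y : CP Y => ((cpEquiv g y, 0) : FP Y × ℕ))
      (fun y z h => (cpEquiv g).injective (Prod.ext_iff.1 h).1)
    refine h2.congr fun y => ?_
    simp only [Function.comp_apply]
    rw [norm_tm (one_lt_nm Y)]
    have h3 : nm Y (cpEquiv g y) = qy y := rfl
    rw [h3]
    simp
  · rw [← Real.sqrt_eq_rpow]
    exact hα y j

/-- the term of the closed point `y`, `x = (y, e)` -/
noncomputable def yTerm (α : CP Y → Fin N → ℂ) (a γ T : ℝ) (x : CP Y × ℕ) : ℂ :=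
  (((∑ j, α x.1 j ^ (x.2 + 1)).re / (x.2 + 1) * Real.exp (-(a * ((x.2 + 1) * Real.log (qy x.1)))) *
      (Real.Gamma (1 + (x.2 + 1) * Real.log (qy x.1) / T))⁻¹ : ℝ) : ℂ) *
    Complex.exp ((γ * ((x.2 + 1) * Real.log (qy x.1) / T) : ℝ) * Complex.I)

theorem yTerm_eq {D : ℝ} {α : CP Y → Fin N → ℂ}
    (E : CED D (1 / 2) (fun y : CP Y => (qy y : ℝ)) α) (a γ T : ℝ) (x : CP Y × ℕ) :
    yTerm α a γ T x = cterm (fun y : CP Y => (qy y : ℝ)) α (a : ℂ) γ T x := by
  rw [E.cterm_eq]
  have h1 : coffc (fq fun y : CP Y => (qy y : ℝ)) (ccq α) (a : ℂ) x =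
      (∑ j, α x.1 j ^ (x.2 + 1)).re / (x.2 + 1) *
        Real.exp (-(a * fq (fun y : CP Y => (qy y : ℝ)) x)) := by
    unfold coffc ccq
    have e3 : Complex.exp (-((a : ℂ) * (fq (fun y : CP Y => (qy y : ℝ)) x : ℝ))) =
        ((Real.exp (-(a * fq (fun y : CP Y => (qy y : ℝ)) x)) : ℝ) : ℂ) := by push_cast; rfl
    have e4 : ((x.2 : ℂ) + 1) = (((x.2 : ℝ) + 1 : ℝ) : ℂ) := by push_cast; rfl
    rw [e3, mul_comm, Complex.re_ofReal_mul, e4, Complex.div_ofReal_re]
    ring
  rw [h1]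
  unfold yTerm om fq
  push_cast
  ring

/-- **The law for Euler products over the closed points.** -/
theorem y_law (g : Y ⟶ Spec (CommRingCat.of ℤ)) [LocallyOfFiniteType g] [QuasiCompact g]
    {α : CP Y → Fin N → ℂ} (hα : ∀ y j, ‖α y j‖ ≤ √(qy y)) {F : ℂ → ℂ} {B : ℝ}
    (hF : ∀ s : ℂ, B < s.re → F s = ∏' y : CP Y, ∏ j, (1 - α y j * (qy y : ℂ) ^ (-s))⁻¹)
    {a : ℝ} (hmer : ∀ x : ℝ, a ≤ x → MeromorphicAt F (x : ℂ)) {γ : ℝ} (hγ : Real.pi / 2 < γ) :
    (∀ T : ℝ, 0 < T → Summable fun x => ‖yTerm α a γ T x‖) ∧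
    ∃ (n : ℤ) (l : ℂ), meromorphicOrderAt F (a : ℂ) = n ∧
      meromorphicTrailingCoeffAt F (a : ℂ) = l ∧ l ≠ 0 ∧
      (fun T : ℝ => (∑' x, yTerm α a γ T x) - (-n * (Real.log T - Lam γ) +
        Real.log ‖l‖ - Real.pi * rayZ F (a : ℂ) * Complex.I)) =O[atTop] (fun T : ℝ => 1 / T) := by
  obtain ⟨D, E⟩ := fam_data g hα
  have hD : CDS (max B (D + 1 / 2)) (fq fun y : CP Y => (qy y : ℝ)) (ccq α) F :=
    { lam_nonneg := E.fq_nonneg
      sum := fun σ hσ => E.summable ((le_max_right _ _).trans_lt hσ)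
      eq := fun s hs => by
        rw [hF s ((le_max_left _ _).trans_lt hs)]
        have h1 := (E.hasProd ((le_max_right _ _).trans_lt hs)).tprod_eq
        rw [← h1]
        refine tprod_congr fun y => Finset.prod_congr rfl fun j _ => ?_
        simp }
  have hc : Countable (CP Y) := by
    have h1 := E.sum (D + 1) (by linarith)
    have h2 := h1.countable_support
    have h3 : Function.support (fun y : CP Y => (qy y : ℝ) ^ (-(D + 1))) = Set.univ := by
      ext y
      have := two_le_qy g y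
      have h4 : (0 : ℝ) < qy y := by exact_mod_cast (by omega : 0 < qy y)
      simp only [Function.mem_support, Set.mem_univ, iff_true]
      positivity
    rw [h3] at h2
    exact Set.countable_univ_iff.1 h2
  constructor
  · intro T hT
    refine (Pool.Agent.U252.SZ.cds_summable hD (a : ℂ) γ hT).congr fun x => ?_
    rw [yTerm_eq E, E.cterm_eq]
  · obtain ⟨n, l, h1, h2, h3, h4⟩ := hD.off (a : ℂ) (fun x hx => by
      have := hmer (a + x) (by linarith)
      rwa [Complex.ofReal_add] at this) hγ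
    refine ⟨n, l, h1, h2, h3, ?_⟩
    refine h4.congr_left fun T => ?_
    congr 1
    unfold cmean
    exact tsum_congr fun x => by rw [yTerm_eq E, E.cterm_eq]

end Pool.Agent.U252.AZ
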