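import Pool.Agent.U252.AZ.Fam

/-! Families of curves: the Frobenius traces and the numbers of points of the total space. -/

set_option autoImplicit false

open AlgebraicGeometry CategoryTheory

namespace Pool.Agent.U252.AZ

open Pool.Agent.Q193.Zeta Pool.Agent.U252.RM Filter Topology Set

variable {X Y : Scheme.{0}} {N : ℕ}

/-- the eigenvalues of Frobenius of a family of curves -/
def IsFrobenius (f : X ⟶ Y) (α : CP Y → Fin N → ℂ) : Prop :=
  ∀ (K : Type) [Field K] [Finite K] (y : CP Y) (φ : Y.residueField y.1 ⟶ CommRingCat.of K) (e : ℕ),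
    Nat.card K = qy y ^ e →
    ((Nat.card {Q : Spec (CommRingCat.of K) ⟶ X //
      Q ≫ f = Spec.map φ ≫ Y.fromSpecResidueField y.1} : ℕ) : ℂ) =
      1 + Nat.card K - ∑ j, α y j ^ e

/-- the trace -/
noncomputable def trr (α : CP Y → Fin N → ℂ) (y : CP Y) (e : ℕ) : ℝ := (∑ j, α y j ^ (e + 1)).re

section

variable (f : X ⟶ Y) (g : Y ⟶ Spec (CommRingCat.of ℤ)) [LocallyOfFiniteType g]
  {α : CP Y → Fin N → ℂ}

/-- the total space over a finite field -/
theorem card_total {K : Type} [Field K] [Finite K] {p n : ℕ} (hp : p.Prime)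
    (hK : Nat.card K = p ^ (n + 1)) (hα : IsFrobenius f α) [Finite (Pt Y K)]
    [Finite (Spec (CommRingCat.of K) ⟶ X)] :
    ∑' j : Fib (nm Y) (Nat.card K), trr α ((cpEquiv g).symm j.1.1) j.1.2 / ((j.1.2 : ℝ) + 1) =
      ((1 + Nat.card K) * Nat.card (Pt Y K) - Nat.card (Spec (CommRingCat.of K) ⟶ X)) /
        (n + 1) := by
  classical
  have h0 := finite_ex Y K hp hK
  have : Fintype (Ex Y (Nat.card K)) := Fintype.ofFinite _
  have h1 : ∀ x : Ex Y (Nat.card K), Finite (Y.residueField x.1.1 ⟶ CommRingCat.of K) := by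
    intro x
    have := x.1.2
    have : Finite (Y.residueField x.1.1 →+* K) :=
      Finite.of_injective (fun f => (f : Y.residueField x.1.1 → K)) DFunLike.coe_injective
    exact Finite.of_equiv _ (homE Y K x.1.1).symm
  have h1' : ∀ x : Ex Y (Nat.card K), Fintype (Y.residueField x.1.1 ⟶ CommRingCat.of K) :=
    fun x => Fintype.ofFinite _
  -- the points of `Y`
  have hY : (Nat.card (Pt Y K) : ℝ) =
      ∑ x : Ex Y (Nat.card K), (Nat.card (Y.residueField x.1.1 ⟶ CommRingCat.of K) : ℝ) := by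
    rw [Nat.card_congr (ptEquiv Y K), Nat.card_sigma]
    push_cast
    rfl
  -- the points of `X`
  have eX : (Spec (CommRingCat.of K) ⟶ X) ≃
      Σ x : Ex Y (Nat.card K), Σ φ : (Y.residueField x.1.1 ⟶ CommRingCat.of K),
        {Q : Spec (CommRingCat.of K) ⟶ X // Q ≫ f = Spec.map φ ≫ Y.fromSpecResidueField x.1.1} := by
    refine (Equiv.sigmaFiberEquiv fun Q : Spec (CommRingCat.of K) ⟶ X => Q ≫ f).symm.trans ?_
    have e1 : (Spec (CommRingCat.of K) ⟶ Y) ≃
        Σ x : Ex Y (Nat.card K), (Y.residueField x.1.1 ⟶ CommRingCat.of K) :=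
      (Scheme.SpecToEquivOfField K Y).trans (ptEquiv Y K)
    refine (Equiv.sigmaCongrLeft' (β := fun P : (Spec (CommRingCat.of K) ⟶ Y) =>
      {Q : Spec (CommRingCat.of K) ⟶ X // Q ≫ f = P})
      ((Scheme.SpecToEquivOfField K Y).trans (ptEquiv Y K))).trans ?_
    exact Equiv.sigmaAssoc (fun (x : Ex Y (Nat.card K))
      (φ : (Y.residueField x.1.1 ⟶ CommRingCat.of K)) =>
        {Q : Spec (CommRingCat.of K) ⟶ X // Q ≫ f = Spec.map φ ≫ Y.fromSpecResidueField x.1.1})
  have hfib : ∀ (x : Ex Y (Nat.card K)) (φ : (Y.residueField x.1.1 ⟶ CommRingCat.of K)),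
      Finite {Q : Spec (CommRingCat.of K) ⟶ X //
        Q ≫ f = Spec.map φ ≫ Y.fromSpecResidueField x.1.1} := fun x φ => inferInstance
  have hX : (Nat.card (Spec (CommRingCat.of K) ⟶ X) : ℝ) = ∑ x : Ex Y (Nat.card K),
      (Nat.card (Y.residueField x.1.1 ⟶ CommRingCat.of K) : ℝ) *
        (1 + Nat.card K - trr α ((cpEquiv g).symm x.1) x.2.choose) := by
    rw [Nat.card_congr eX, Nat.card_sigma]
    push_cast
    refine Finset.sum_congr rfl fun x _ => ?_
    rw [Nat.card_sigma]
    push_cast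
    have h3 : ∀ φ : (Y.residueField x.1.1 ⟶ CommRingCat.of K),
        (Nat.card {Q : Spec (CommRingCat.of K) ⟶ X //
          Q ≫ f = Spec.map φ ≫ Y.fromSpecResidueField x.1.1} : ℝ) =
        1 + Nat.card K - trr α ((cpEquiv g).symm x.1) x.2.choose := by
      intro φ
      have h4 := hα K ((cpEquiv g).symm x.1) φ (x.2.choose + 1) x.2.choose_spec.symm
      have h5 := congrArg Complex.re h4
      have e1 : (((Nat.card {Q : Spec (CommRingCat.of K) ⟶ X //
          Q ≫ f = Spec.map φ ≫ Y.fromSpecResidueField x.1.1} : ℕ) : ℂ)).re =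
          (Nat.card {Q : Spec (CommRingCat.of K) ⟶ X //
          Q ≫ f = Spec.map φ ≫ Y.fromSpecResidueField x.1.1} : ℝ) := Complex.natCast_re _
      have e2 : (1 + (Nat.card K : ℂ) - ∑ j, α ((cpEquiv g).symm x.1) j ^ (x.2.choose + 1)).re =
          1 + Nat.card K - trr α ((cpEquiv g).symm x.1) x.2.choose := by
        unfold trr
        rw [Complex.sub_re, Complex.add_re, Complex.one_re, Complex.natCast_re]
      rw [e2] at h5
      rw [← h5]
      exact e1.symm
    rw [Finset.sum_congr rfl fun φ _ => h3 φ, Finset.sum_const, Finset.card_univ, nsmul_eq_mul,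
      ← Nat.card_eq_fintype_card]
  have hn0 : ((n : ℝ) + 1) ≠ 0 := by positivity
  rw [eq_div_iff hn0, hX, hY, ← (fibEquiv Y (Nat.card K)).tsum_eq, tsum_fintype, Finset.sum_mul,
    Finset.mul_sum, ← Finset.sum_sub_distrib]
  refine Finset.sum_congr rfl fun x _ => ?_
  have hx := x.1.2
  have h2 := card_hom (k := Y.residueField x.1.1) (K := K) hp hK x.2.choose_spec
  rw [Nat.card_congr (homE Y K x.1.1)]
  change trr α ((cpEquiv g).symm x.1) x.2.choose / ((x.2.choose : ℝ) + 1) * ((n : ℝ) + 1) = _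
  have h3 : (n : ℝ) + 1 = ((x.2.choose : ℝ) + 1) * Nat.card (Y.residueField x.1.1 →+* K) := by
    exact_mod_cast h2.symm
  rw [h3]
  field_simp
  ring

end

end Pool.Agent.U252.AZ
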