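import Pool.Agent.U252.AZ.Fam2

/-! Families of curves: the sum over the closed points and the sum over the prime powers. -/

set_option autoImplicit false

open AlgebraicGeometry CategoryTheory

namespace Pool.Agent.U252.AZ

open Pool.Agent.Q193.Zeta Pool.Agent.U252.RM Filter Topology Set

variable {X Y : Scheme.{0}} {N : ℕ}

/-- the number `(1 + q) #Y(𝔽_q) - #X(𝔽_q)` -/
noncomputable def defect (X Y : Scheme.{0}) (x : Nat.Primes × ℕ) : ℝ :=
  (1 + (x.1 : ℝ) ^ (x.2 + 1)) * pointCount Y x - pointCount X x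

/-- the weight of `m` -/
noncomputable def wgt (a γ T : ℝ) (m : ℕ) : ℂ :=
  ((Real.exp (-(a * Real.log m)) * (Real.Gamma (1 + Real.log m / T))⁻¹ : ℝ) : ℂ) *
    Complex.exp ((γ * (Real.log m / T) : ℝ) * Complex.I)

variable (f : X ⟶ Y) (g : Y ⟶ Spec (CommRingCat.of ℤ)) [LocallyOfFiniteType g] [QuasiCompact g]
  {α : CP Y → Fin N → ℂ}

/-- **The two sums are equal.** -/
theorem two_sums [LocallyOfFiniteType (f ≫ g)] [QuasiCompact (f ≫ g)] (hα : IsFrobenius f α)
    (a γ T : ℝ) (hsum : Summable fun x : CP Y × ℕ => ‖yTerm α a γ T x‖) :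
    (Summable fun x => ‖qTerm (defect X Y) a γ T x‖) ∧
    ∑' x : CP Y × ℕ, yTerm α a γ T x = ∑' x, qTerm (defect X Y) a γ T x := by
  classical
  obtain ⟨C, k, hS⟩ := bounded g
  obtain ⟨C', k', hX⟩ := bounded (f ≫ g)
  -- the coefficient of `m`
  set cm : ℕ → ℝ := fun m => ∑' j : Fib (nm Y) m,
    trr α ((cpEquiv g).symm j.1.1) j.1.2 / ((j.1.2 : ℝ) + 1) with hcm
  have hfin : ∀ m, Finite (Fib (nm Y) m) := finite_fib' hS
  -- the terms
  set e1 : FP Y × ℕ ≃ CP Y × ℕ := (cpEquiv g).symm.prodCongr (Equiv.refl ℕ) with he1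
  have hterm : ∀ (m : ℕ) (j : Fib (nm Y) m), yTerm α a γ T (e1 j.1) =
      ((trr α ((cpEquiv g).symm j.1.1) j.1.2 / ((j.1.2 : ℝ) + 1) : ℝ) : ℂ) * wgt a γ T m := by
    rintro m ⟨⟨y, e⟩, h⟩
    have hlog : ((e : ℝ) + 1) * Real.log (qy ((cpEquiv g).symm y)) = Real.log m := by
      have h1 : qy ((cpEquiv g).symm y) = nm Y y := rfl
      rw [h1, ← h, Nat.cast_pow, Real.log_pow]
      push_cast
      ring
    have e2 : e1 (y, e) = ((cpEquiv g).symm y, e) := rfl
    simp only [e2]
    unfold yTerm wgt trr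
    simp only
    rw [hlog]
    push_cast
    ring
  have hs1 : Summable fun x : CP Y × ℕ => yTerm α a γ T x := hsum.of_norm
  have hs2 : Summable fun x : FP Y × ℕ => yTerm α a γ T (e1 x) := (e1.summable_iff).2 hs1
  have hs3 : Summable fun z : (Σ m, Fib (nm Y) m) => yTerm α a γ T (e1 z.2.1) :=
    ((Equiv.sigmaFiberEquiv fun j : FP Y × ℕ => nm Y j.1 ^ (j.2 + 1)).summable_iff
      (f := fun x => yTerm α a γ T (e1 x))).2 hs2
  have hinner : ∀ m : ℕ, ∑' j : Fib (nm Y) m, yTerm α a γ T (e1 j.1) =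
      ((cm m : ℝ) : ℂ) * wgt a γ T m := by
    intro m
    have := hfin m
    rw [tsum_congr (hterm m), tsum_mul_right, hcm, Complex.ofReal_tsum]
  have htot : ∑' x : CP Y × ℕ, yTerm α a γ T x = ∑' m : ℕ, ((cm m : ℝ) : ℂ) * wgt a γ T m := by
    rw [← e1.tsum_eq, ← (Equiv.sigmaFiberEquiv
      fun j : FP Y × ℕ => nm Y j.1 ^ (j.2 + 1)).tsum_eq (f := fun x => yTerm α a γ T (e1 x))]
    have h1 := hs3.tsum_sigma' (fun m => by
      have := hfin m
      exact Summable.of_finite)
    refine Eq.trans ?_ (h1.trans (tsum_congr hinner))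
    exact tsum_congr fun z => rfl
  have hoff : ∀ m : ℕ, m ∉ Set.range qq → cm m = 0 := by
    intro m hm
    have : IsEmpty (Fib (nm Y) m) := by
      refine cf_eq_zero Y ?_
      rintro ⟨p, n, hp, hn, rfl⟩
      apply hm
      refine ⟨(⟨p, hp⟩, n - 1), ?_⟩
      unfold qq
      simp only
      rw [Nat.sub_add_cancel (Nat.one_le_iff_ne_zero.2 hn)]
    exact tsum_empty
  have hon : ∀ x : Nat.Primes × ℕ, cm (qq x) = defect X Y x / (x.2 + 1) := by
    intro x
    have hF : Fact (x.1 : ℕ).Prime := ⟨x.1.2⟩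
    have hfinK : Finite (GaloisField x.1 (x.2 + 1)) := inferInstance
    have hK : Nat.card (GaloisField x.1 (x.2 + 1)) = (x.1 : ℕ) ^ (x.2 + 1) :=
      GaloisField.card _ _ (Nat.succ_ne_zero _)
    have a1 := (hS (GaloisField x.1 (x.2 + 1))).1
    have a2 := (hX (GaloisField x.1 (x.2 + 1))).1
    have a3 : Finite (Spec (CommRingCat.of (GaloisField x.1 (x.2 + 1))) ⟶ X) :=
      Finite.of_equiv _ (Scheme.SpecToEquivOfField (GaloisField x.1 (x.2 + 1)) X).symm
    have h1 := card_total f g x.1.2 hK hα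
    have h3 : Nat.card (Pt Y (GaloisField x.1 (x.2 + 1))) = pointCount Y x := by
      unfold pointCount
      exact Nat.card_congr (Scheme.SpecToEquivOfField (GaloisField x.1 (x.2 + 1)) Y).symm
    have h4 : Nat.card (Spec (CommRingCat.of (GaloisField x.1 (x.2 + 1))) ⟶ X) =
        pointCount X x := rfl
    rw [h3, h4] at h1
    rw [hK] at h1
    rw [hcm]
    unfold defect qq
    simp only
    rw [h1]
    push_cast
    rfl
  have hq : ∀ x : Nat.Primes × ℕ, qTerm (defect X Y) a γ T x =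
      ((cm (qq x) : ℝ) : ℂ) * wgt a γ T (qq x) := by
    intro x
    unfold qTerm wgt
    rw [hon, log_qq]
    push_cast
    ring
  have hsupp : Function.support (fun m : ℕ => ((cm m : ℝ) : ℂ) * wgt a γ T m) ⊆ Set.range qq := by
    intro m hm
    by_contra h
    apply hm
    simp only
    rw [hoff m h, Complex.ofReal_zero, zero_mul]
  constructor
  · have h1 : Summable fun m : ℕ => ((cm m : ℝ) : ℂ) * wgt a γ T m := by
      have h2 := hs3.sigma
      refine h2.congr fun m => ?_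
      exact hinner m
    have h2 := (h1.comp_injective qq_injective).norm
    refine h2.congr fun x => ?_
    rw [hq]
    rfl
  · rw [htot, ← qq_injective.tsum_eq hsupp]
    exact tsum_congr fun x => (hq x).symm

end Pool.Agent.U252.AZ
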