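import Pool.Agent.U252.AZ.Zt
import Pool.Agent.U252.SZ.Law

/-! The rotated mean of the numbers of points over finite fields. -/

set_option autoImplicit false

open AlgebraicGeometry CategoryTheory

namespace Pool.Agent.U252.AZ

open Pool.Agent.U252.RM Filter Topology Set
open Pool.Agent.W187.UR (Lam cmean)
open Pool.Agent.W189.ML (ser om)

instance : Countable (Nat.Primes × ℕ) := inferInstance

/-- the term at `q = p ^ (n + 1)` with the coefficient `c` -/
noncomputable def qTerm (c : Nat.Primes × ℕ → ℝ) (a γ T : ℝ) (x : Nat.Primes × ℕ) : ℂ :=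
  ((c x / (x.2 + 1) * Real.exp (-(a * lq x)) * (Real.Gamma (1 + lq x / T))⁻¹ : ℝ) : ℂ) *
    Complex.exp ((γ * (lq x / T) : ℝ) * Complex.I)

theorem coff_real {ι : Type} (lam c : ι → ℝ) (a : ℝ) (i : ι) :
    coffc lam (fun i => ((c i : ℝ) : ℂ)) (a : ℂ) i = c i * Real.exp (-(a * lam i)) := by
  unfold coffc
  have e3 : Complex.exp (-((a : ℂ) * (lam i : ℝ))) = ((Real.exp (-(a * lam i)) : ℝ) : ℂ) := by
    push_cast; rfl
  rw [e3, ← Complex.ofReal_mul, Complex.ofReal_re]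

theorem qTerm_eq (c : Nat.Primes × ℕ → ℝ) (a γ T : ℝ) (x : Nat.Primes × ℕ) : qTerm c a γ T x =
    ((coffc lq (fun x => ((c x / (x.2 + 1) : ℝ) : ℂ)) (a : ℂ) x : ℂ) *
      Complex.exp ((γ * (lq x / T) : ℝ) * Complex.I) * (om (lq x / T) : ℂ)) := by
  rw [coff_real]
  unfold qTerm om
  push_cast
  ring

/-- **The law for the numbers of points.** -/
theorem q_law {F : ℂ → ℂ} {A : ℝ} {c : Nat.Primes × ℕ → ℝ}
    (D : CDS A lq (fun x => ((c x / (x.2 + 1) : ℝ) : ℂ)) F)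
    {a : ℝ} (hmer : ∀ x : ℝ, a ≤ x → MeromorphicAt F (x : ℂ)) {γ : ℝ} (hγ : Real.pi / 2 < γ) :
    (∀ T : ℝ, 0 < T → Summable fun x => ‖qTerm c a γ T x‖) ∧
    ∃ (n : ℤ) (l : ℂ), meromorphicOrderAt F (a : ℂ) = n ∧
      meromorphicTrailingCoeffAt F (a : ℂ) = l ∧ l ≠ 0 ∧
      (fun T : ℝ => (∑' x, qTerm c a γ T x) - (-n * (Real.log T - Lam γ) +
        Real.log ‖l‖ - Real.pi * rayZ F (a : ℂ) * Complex.I)) =O[atTop] (fun T : ℝ => 1 / T) := by
  constructor
  · intro T hT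
    refine (Pool.Agent.U252.SZ.cds_summable D (a : ℂ) γ hT).congr fun x => ?_
    rw [qTerm_eq]
  · obtain ⟨n, l, h1, h2, h3, h4⟩ := D.off (a : ℂ) (fun x hx => by
      have := hmer (a + x) (by linarith)
      rwa [Complex.ofReal_add] at this) hγ
    refine ⟨n, l, h1, h2, h3, ?_⟩
    refine h4.congr_left fun T => ?_
    congr 1
    unfold cmean
    exact tsum_congr fun x => (qTerm_eq c a γ T x).symm

end Pool.Agent.U252.AZ
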