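import Pool.Agent.U252.AZ.Defs
import Pool.Agent.Q193.Zeta.Dir
import Pool.Agent.U252.RM.Cx

/-! The zeta function of a scheme of finite type over `ℤ` as the exponential of a Dirichlet series
over the prime powers. -/

set_option autoImplicit false

open AlgebraicGeometry CategoryTheory

namespace Pool.Agent.U252.AZ

open Pool.Agent.Q193.Zeta Pool.Agent.U252.RM Complex

/-- `log q`, `q = p ^ (n + 1)` -/
noncomputable def lq (x : Nat.Primes × ℕ) : ℝ := (x.2 + 1) * Real.log x.1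

/-- the prime power -/
def qq (x : Nat.Primes × ℕ) : ℕ := (x.1 : ℕ) ^ (x.2 + 1)

theorem qq_pos (x : Nat.Primes × ℕ) : 0 < qq x := pow_pos x.1.2.pos _

theorem log_qq (x : Nat.Primes × ℕ) : Real.log (qq x) = lq x := by
  unfold qq lq
  rw [Nat.cast_pow, Real.log_pow]
  push_cast
  ring

theorem lq_nonneg (x : Nat.Primes × ℕ) : 0 ≤ lq x := by
  rw [← log_qq]
  exact Real.log_natCast_nonneg _

theorem qq_injective : Function.Injective qq := by
  rintro ⟨p, n⟩ ⟨p', n'⟩ h
  unfold qq at h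
  simp only at h
  have h1 : (p : ℕ) = p' := by
    have h2 : (p : ℕ) ∣ (p' : ℕ) ^ (n' + 1) := by rw [← h]; exact dvd_pow_self _ (Nat.succ_ne_zero n)
    exact (Nat.prime_dvd_prime_iff_eq p.2 p'.2).1 (p.2.dvd_of_dvd_pow h2)
  have h3 : p = p' := Subtype.ext h1
  subst h3
  have h4 := Nat.pow_right_injective p.2.two_le h
  simp only [Prod.mk.injEq, true_and]
  omega

theorem cpow_qq (x : Nat.Primes × ℕ) (s : ℂ) : (qq x : ℂ) ^ (-s) = Complex.exp (-(s * (lq x : ℝ))) := by
  have h0 : (qq x : ℂ) ≠ 0 := by exact_mod_cast (qq_pos x).ne'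
  rw [Complex.cpow_def_of_ne_zero h0, ← log_qq, ← Complex.natCast_log]
  congr 1
  ring

section

variable {S : Scheme.{0}} {C k : ℕ} (hS : Bounded S C k)

include hS

/-- the coefficients of the Dirichlet series and the numbers of points -/
theorem cf_qq (x : Nat.Primes × ℕ) : cf (nm S) (qq x) = (pointCount S x : ℝ) / (x.2 + 1) := by
  have hF : Fact (x.1 : ℕ).Prime := ⟨x.1.2⟩
  have hfin : Finite (GaloisField x.1 (x.2 + 1)) := inferInstance
  have hK : Nat.card (GaloisField x.1 (x.2 + 1)) = (x.1 : ℕ) ^ (x.2 + 1) :=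
    GaloisField.card _ _ (Nat.succ_ne_zero _)
  have h1 := (hS (GaloisField x.1 (x.2 + 1))).1
  have h2 := card_pt S (GaloisField x.1 (x.2 + 1)) x.1.2 hK
  rw [hK] at h2
  have h3 : Nat.card (Pt S (GaloisField x.1 (x.2 + 1))) = pointCount S x := by
    unfold pointCount
    exact Nat.card_congr (Scheme.SpecToEquivOfField (GaloisField x.1 (x.2 + 1)) S).symm
  rw [h3] at h2
  have h4 : ((x.2 : ℝ) + 1) ≠ 0 := by positivity
  rw [eq_div_iff h4, ← h2]
  unfold qq
  push_cast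
  ring

omit hS in
theorem cf_off {m : ℕ} (hm : m ∉ Set.range qq) : cf (nm S) m = 0 := by
  have : IsEmpty (Fib (nm S) m) := by
    refine cf_eq_zero S ?_
    rintro ⟨p, n, hp, hn, rfl⟩
    apply hm
    refine ⟨(⟨p, hp⟩, n - 1), ?_⟩
    unfold qq
    simp only
    rw [Nat.sub_add_cancel (Nat.one_le_iff_ne_zero.2 hn)]
  exact tsum_empty

theorem term_qq (s : ℂ) (x : Nat.Primes × ℕ) :
    LSeries.term (fun m => (cf (nm S) m : ℂ)) s (qq x) =
      (((pointCount S x : ℝ) / (x.2 + 1) : ℝ) : ℂ) * Complex.exp (-(s * (lq x : ℝ))) := by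
  rw [LSeries.term_of_ne_zero (qq_pos x).ne', cf_qq hS, div_eq_mul_inv, ← Complex.cpow_neg, cpow_qq]

omit hS in
theorem term_off (s : ℂ) {m : ℕ} (hm : m ∉ Set.range qq) :
    LSeries.term (fun m => (cf (nm S) m : ℂ)) s m = 0 := by
  rw [LSeries.term_def]
  split_ifs
  · rfl
  · rw [cf_off hm]
    simp

/-- the sum over the prime powers -/
theorem hasSum_qq {s : ℂ} (hs : (k : ℝ) + 1 < s.re) :
    HasSum (fun x : Nat.Primes × ℕ => (((pointCount S x : ℝ) / (x.2 + 1) : ℝ) : ℂ) *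
      Complex.exp (-(s * (lq x : ℝ)))) (lz S s) := by
  have h1 : HasSum (LSeries.term (fun m => (cf (nm S) m : ℂ)) s) (lz S s) :=
    (lz_summable hS hs).hasSum
  have h2 := (qq_injective.hasSum_iff (fun m hm => term_off s hm)).2 h1
  convert h2 using 1
  funext x
  exact (term_qq hS s x).symm

theorem norm_qq {σ : ℝ} (hs : (k : ℝ) + 1 < σ) :
    Summable fun x : Nat.Primes × ℕ => ‖(((pointCount S x : ℝ) / (x.2 + 1) : ℝ) : ℂ)‖ *
      Real.exp (-(σ * lq x)) := by
  have h1 := (hasSum_qq hS (s := (σ : ℂ)) (by simpa using hs)).summable.norm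
  refine h1.congr fun x => ?_
  rw [norm_mul, Complex.norm_exp]
  congr 2
  simp

end

/-- **The zeta function as the exponential of a Dirichlet series over the prime powers.** -/
theorem zeta_cds {S : Scheme.{0}} (f : S ⟶ Spec (CommRingCat.of ℤ)) [LocallyOfFiniteType f]
    [QuasiCompact f] {F : ℂ → ℂ} {B : ℝ} (hF : ∀ s : ℂ, B < s.re → F s = zetaProduct S s) :
    ∃ A : ℝ, CDS A lq (fun x => (((pointCount S x : ℝ) / (x.2 + 1) : ℝ) : ℂ)) F := by
  obtain ⟨C, k, hS⟩ := bounded f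
  refine ⟨max B (k + 1), lq_nonneg, fun σ hσ => norm_qq hS ((le_max_right _ _).trans_lt hσ),
    fun s hs => ?_⟩
  rw [hF s ((le_max_left _ _).trans_lt hs)]
  have h1 : zetaProduct S s = zeta S s := rfl
  have hk : (k : ℝ) + 1 < s.re := (le_max_right _ _).trans_lt hs
  rw [h1, zeta_eq hS f hk]
  unfold cser
  rw [(hasSum_qq hS hk).tsum_eq]

/-- the zeta function of `S` is the exponential of a Dirichlet series in some half plane -/
theorem zeta_data {S : Scheme.{0}} (f : S ⟶ Spec (CommRingCat.of ℤ)) [LocallyOfFiniteType f]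
    [QuasiCompact f] : ∃ A : ℝ, (∀ σ : ℝ, A < σ → Summable fun x : Nat.Primes × ℕ =>
      ‖(((pointCount S x : ℝ) / (x.2 + 1) : ℝ) : ℂ)‖ * Real.exp (-(σ * lq x))) ∧
    ∀ s : ℂ, A < s.re → zetaProduct S s = Complex.exp (∑' x : Nat.Primes × ℕ,
      (((pointCount S x : ℝ) / (x.2 + 1) : ℝ) : ℂ) * Complex.exp (-(s * (lq x : ℝ)))) := by
  obtain ⟨A, h⟩ := zeta_cds f (F := zetaProduct S) (B := 0) (fun s _ => rfl)
  exact ⟨A, h.sum, h.eq⟩

end Pool.Agent.U252.AZ
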